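import Pool.Agent.Q5.BP.Hardy2
import Pool.Agent.Results.MP_039d94_nt.ZeroFreeContinuation

/-!
# Analytic continuation of the `L`-functions of varieties: the Hardy space criterion on every vertical line

Let `X` be a smooth projective variety of dimension `d` over a number field `K` (for example `K = ℚ`), given by
homogeneous polynomials over `𝓞 K`, `i ≤ 2 d`, and let `S` be a finite set of primes such that for `v ∉ S` the
eigenvalues `α_{v,1}, …, α_{v,N}` of the Frobenius on `H^i(X)` are given by the numbers of points of `X` over the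
finite extensions of the residue field (by the theorem of Deligne this is so if `S` contains the primes of bad
reduction). NOTHING is assumed on `L(s) = ∏_{v ∉ S} ∏_j (1 - α_{v,j} q_v^{-s})⁻¹` outside of its half plane of
absolute convergence `Re s > i/2 + 1`. Let `σ ≥ (i + 1)/2` be real (the centre, or any point to the right of it) and

`P_σ(y) = exp (- ∑_{q_v^k ≤ y} tr (Frob_v^k | H^i(X)) / (k q_v^{σk}))`,

the partial Euler product at `σ` with the prime powers and the SHARP cut-off. Then for all real `ρ` and all `A > 0`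
the following are EQUIVALENT:

* `∫_e^∞ (log (A P_σ(y) / (e^γ log y)^ρ))² dy/y < ∞`;
* `L(s)` has an analytic continuation to `Re s > σ` of the form `L(s) = A (s - σ)^ρ exp ((s - σ) H(s))` with a
  function `H` in the Hardy space `H²` of the half plane `Re s > σ`; in particular the continuation has no zeros there.

In this case Parseval's formula holds on every vertical line,

`∫ |H(σ + x + it)|² dt = 2π ∫_1^∞ (log (A P_σ(y) / (e^γ log y)^ρ))² y^{-2x} dy/y`  (`x > 0`),

and `L(σ + x) / x^ρ → A` for `x → 0`. For `i ≥ 2` and general `X` no continuation of `L` to any point outside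
`Re s > i/2 + 1` is known; the criterion translates the zero-free continuation to any of the half planes, with the
natural quadratic bound, into a statement on the numbers of points of `X` over finite fields. For elliptic curves and
the centre this is `HardyCriterion` of problem `MP_bf61d2_nt`.
-/

set_option autoImplicit false

namespace Pool.Agent.Results.MP_148101_nt.HardyCriterionVarieties

open Filter Topology Set Complex NumberField IsDedekindDomain MeasureTheory
open Pool.Agent.Results.MP_039d94_nt.ZeroFreeContinuation (norm IsLocal factor)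

variable {K : Type} [Field K] [NumberField K] {N : ℕ}

/-- `P_σ(y) = exp (- ∑_{q_v^k ≤ y} tr (Frob_v^k) / (k q_v^{σk}))`, the (finite) sum over the pairs `(v, k)`, `v` a prime
outside of `S`, `k = p.2 + 1 ≥ 1`, with `q_v^k ≤ y`; the traces `∑_j α_{v,j}^k` are real. -/
noncomputable def productStar (σ : ℝ) (S : Finset (HeightOneSpectrum (𝓞 K)))
    (α : HeightOneSpectrum (𝓞 K) → Fin N → ℂ) (y : ℝ) : ℝ :=
  Real.exp (-∑ᶠ (p : {v : HeightOneSpectrum (𝓞 K) // v ∉ S} × ℕ)
    (_ : (norm p.1.1 : ℝ) ^ (p.2 + 1) ≤ y),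
      (∑ j, α p.1.1 j ^ (p.2 + 1)).re /
        (((p.2 : ℝ) + 1) * ((norm p.1.1 : ℝ) ^ σ) ^ (p.2 + 1)))

/-- `log (A P_σ(y) / (e^γ log y)^ρ)` -/
noncomputable def dev (σ : ℝ) (S : Finset (HeightOneSpectrum (𝓞 K)))
    (α : HeightOneSpectrum (𝓞 K) → Fin N → ℂ) (ρ A y : ℝ) : ℝ :=
  Real.log (A * productStar σ S α y / (Real.exp Real.eulerMascheroniConstant * Real.log y) ^ ρ)

/-- `∫_e^∞ (log (A P_σ(y) / (e^γ log y)^ρ))² dy/y < ∞`. -/
def SquareIntegrable (σ : ℝ) (S : Finset (HeightOneSpectrum (𝓞 K)))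
    (α : HeightOneSpectrum (𝓞 K) → Fin N → ℂ) (ρ A : ℝ) : Prop :=
  IntegrableOn (fun y : ℝ => dev σ S α ρ A y ^ 2 / y) (Ioi (Real.exp 1))

/-- `H` belongs to the Hardy space `H²` of the half plane `Re s > σ`: it is analytic there, bounded on the smaller
half planes, and the integrals of `|H|²` over the vertical lines are bounded. -/
structure Hardy (σ : ℝ) (H : ℂ → ℂ) : Prop where
  analytic : ∀ s : ℂ, σ < s.re → DifferentiableAt ℂ H s
  bounded : ∀ x : ℝ, σ < x → ∃ B : ℝ, ∀ s : ℂ, x ≤ s.re → ‖H s‖ ≤ B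
  square : ∃ M : ℝ, ∀ x : ℝ, σ < x → ∫⁻ t : ℝ, ‖H (x + t * I)‖ₑ ^ 2 ≤ ENNReal.ofReal M

/-- The product `∏_{v ∉ S} factor v` converges to `A (s - σ)^ρ exp ((s - σ) H(s))` for `Re s > i/2 + 1` and
`Re s > σ + 1/2`. -/
def IsContinuation (i : ℕ) (σ : ℝ) (S : Finset (HeightOneSpectrum (𝓞 K)))
    (α : HeightOneSpectrum (𝓞 K) → Fin N → ℂ) (ρ A : ℝ) (H : ℂ → ℂ) : Prop :=
  ∀ s : ℂ, (i : ℝ) / 2 + 1 < s.re → σ + 1 / 2 < s.re →
    HasProd (fun v : {v : HeightOneSpectrum (𝓞 K) // v ∉ S} => factor α v.1 s)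
      (A * (s - σ) ^ (ρ : ℂ) * exp ((s - σ) * H s))

/-- Parseval's formula on the lines `Re s = σ + x`. -/
def Parseval (σ : ℝ) (S : Finset (HeightOneSpectrum (𝓞 K)))
    (α : HeightOneSpectrum (𝓞 K) → Fin N → ℂ) (ρ A : ℝ) (H : ℂ → ℂ) : Prop :=
  ∀ x : ℝ, 0 < x → ∫⁻ t : ℝ, ‖H (σ + x + t * I)‖ₑ ^ 2 = ENNReal.ofReal (2 * Real.pi) *
    ∫⁻ y in Ioi (1 : ℝ), ENNReal.ofReal (dev σ S α ρ A y ^ 2 * y ^ (-(2 * x)) / y)

/-! ### translation -/

open Pool.Agent.TH942.ES (zv xv LE Sys cP)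
open Pool.Agent.TH270.MS (DvR Pl)
open Pool.Agent.Q5.BP (H2 sys_hardy)
open Pool.Agent.Q5.VA (NS aV Frob factorV cP_V)

variable {n : ℕ} {X : Set (MvPolynomial (Fin n) (𝓞 K))} {d i : ℕ}
  {S : Finset (HeightOneSpectrum (𝓞 K))} {α : HeightOneSpectrum (𝓞 K) → Fin N → ℂ} {σ : ℝ}

theorem log_star (y : ℝ) : Real.log (productStar σ S α y) = -Pl (NS S) (aV σ S α) y := by
  unfold productStar Pl
  rw [Real.log_exp]
  congr 1
  refine finsum_congr fun p => finsum_congr fun _ => ?_
  rw [cP_V p]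
  rfl

theorem star_pos (y : ℝ) : 0 < productStar σ S α y := Real.exp_pos _

theorem dev_eq {ρ A y : ℝ} (hA : 0 < A) (hy : 1 < y) :
    dev σ S α ρ A y = -DvR (NS S) (aV σ S α) ρ A y := by
  have hl : 0 < Real.log y := Real.log_pos hy
  have h1 : 0 < Real.exp Real.eulerMascheroniConstant * Real.log y :=
    mul_pos (Real.exp_pos _) hl
  have h2 := Real.rpow_pos_of_pos h1 ρ
  unfold dev
  rw [Real.log_div (mul_pos hA (star_pos y)).ne' h2.ne', Real.log_mul hA.ne'
    (star_pos y).ne', log_star, Real.log_rpow h1, Real.log_mul (Real.exp_pos _).ne' hl.ne',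
    Real.log_exp]
  unfold DvR
  ring

theorem prod_iff (E : Sys (NS S) (aV σ S α)) {s : ℂ} (hs : 1 / 2 < s.re) (Z : ℂ) :
    HasProd (fun v : {v : HeightOneSpectrum (𝓞 K) // v ∉ S} => factor α v.1 (σ + s)) Z ↔
      LE (NS S) (aV σ S α) s = Z := by
  have h3 : (fun v : {v : HeightOneSpectrum (𝓞 K) // v ∉ S} => factor α v.1 (σ + s)) =
      fun v => ∏ i, (1 - zv (NS S) (aV σ S α) v i * xv (NS S) v s)⁻¹ := by
    funext v
    have h4 := factorV (S := S) (α := α) σ v (σ + s)
    rw [add_sub_cancel_left] at h4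
    exact h4.symm
  rw [h3]
  have h5 := E.hasProd hs
  constructor
  · intro h
    exact h.tprod_eq
  · intro h
    have h6 := h5.multipliable.hasProd
    have h7 : ∏' v, ∏ i, (1 - zv (NS S) (aV σ S α) v i * xv (NS S) v s)⁻¹ = Z := h
    rwa [h7] at h6

theorem cont_iff (E : Sys (NS S) (aV σ S α)) (hσ : ((i : ℝ) + 1) / 2 ≤ σ) (ρ A : ℝ) (H : ℂ → ℂ) :
    IsContinuation i σ S α ρ A H ↔ ∀ s : ℂ, 1 / 2 < s.re →
      LE (NS S) (aV σ S α) s = A * s ^ (ρ : ℂ) * exp (s * H (σ + s)) := by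
  constructor
  · intro h s hs
    have h0 : ((σ : ℂ) + s).re = σ + s.re := by simp
    have h1 := h (σ + s) (by rw [h0]; linarith) (by rw [h0]; linarith)
    rw [prod_iff E hs, add_sub_cancel_left] at h1
    exact h1
  · intro h s _ hs
    have hs' : 1 / 2 < (s - σ).re := by
      rw [Complex.sub_re, Complex.ofReal_re]
      linarith
    have h1 := h (s - σ) hs'
    rw [← prod_iff E hs', add_sub_cancel] at h1
    exact h1

theorem hardy_iff (σ : ℝ) (H : ℂ → ℂ) : Hardy σ H ↔ H2 (fun s => H (σ + s)) := by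
  constructor
  · rintro ⟨h1, h2, M, h3⟩
    refine ⟨fun s hs => ?_, fun δ hδ => ?_, M, fun x hx => ?_⟩
    · have h4 := h1 (σ + s) (by simpa using hs)
      exact DifferentiableAt.comp s (f := fun s : ℂ => (σ : ℂ) + s) h4 (by fun_prop)
    · obtain ⟨B, hB⟩ := h2 (σ + δ) (by linarith)
      exact ⟨B, fun s hs => hB (σ + s) (by simpa using hs)⟩
    · have h4 := h3 (σ + x) (by linarith)
      refine le_trans (le_of_eq (lintegral_congr fun t => ?_)) h4
      push_cast
      rw [← add_assoc]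
  · rintro ⟨h1, h2, M, h3⟩
    refine ⟨fun s hs => ?_, fun x hx => ?_, M, fun x hx => ?_⟩
    · have h4 := h1 (s - σ) (by simpa using hs)
      have h5 : H = (fun s => H (σ + s)) ∘ fun s => s - (σ : ℂ) := by
        funext z
        simp
      rw [h5]
      exact DifferentiableAt.comp s (f := fun s : ℂ => s - (σ : ℂ)) h4 (by fun_prop)
    · obtain ⟨B, hB⟩ := h2 (x - σ) (by linarith)
      refine ⟨B, fun s hs => ?_⟩
      have h4 := hB (s - σ) (by
        rw [Complex.sub_re, Complex.ofReal_re]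
        linarith)
      rwa [add_sub_cancel] at h4
    · have h4 := h3 (x - σ) (by linarith)
      refine le_trans (le_of_eq (lintegral_congr fun t => ?_)) h4
      congr 3
      push_cast
      ring

theorem shift_exists (σ : ℝ) (P : (ℂ → ℂ) → Prop) :
    (∃ H : ℂ → ℂ, P (fun s => H (σ + s))) ↔ ∃ H : ℂ → ℂ, P H := by
  constructor
  · rintro ⟨H, h⟩
    exact ⟨_, h⟩
  · rintro ⟨H, h⟩
    refine ⟨fun s => H (s - σ), ?_⟩
    have h1 : (fun s : ℂ => (fun s => H (s - σ)) (σ + s)) = H := by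
      funext s
      simp
    rw [h1]
    exact h

theorem int_iff (ρ : ℝ) {A : ℝ} (hA : 0 < A) : SquareIntegrable σ S α ρ A ↔
    IntegrableOn (fun Y : ℝ => DvR (NS S) (aV σ S α) ρ A Y ^ 2 / Y) (Ioi (Real.exp 1)) := by
  refine integrableOn_congr_fun (fun y hy => ?_) measurableSet_Ioi
  have hy' : Real.exp 1 < y := hy
  have hy1 : 1 < y := by linarith [Real.add_one_le_exp 1]
  rw [dev_eq hA hy1, neg_sq]

/-- **The Hardy space criterion for the continuation of the `L`-functions of varieties.** -/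
theorem result (K : Type) [Field K] [NumberField K] (n : ℕ)
    (X : Set (MvPolynomial (Fin n) (𝓞 K))) (d i N : ℕ) (hi : i ≤ 2 * d)
    (S : Finset (HeightOneSpectrum (𝓞 K))) (α : HeightOneSpectrum (𝓞 K) → Fin N → ℂ)
    (hα : IsLocal X d i S α) (σ : ℝ) (hσ : ((i : ℝ) + 1) / 2 ≤ σ) (ρ A : ℝ) (hA : 0 < A) :
    (SquareIntegrable σ S α ρ A ↔
      ∃ H : ℂ → ℂ, Hardy σ H ∧ IsContinuation i σ S α ρ A H) ∧
    (SquareIntegrable σ S α ρ A → ∃ H : ℂ → ℂ, Hardy σ H ∧ IsContinuation i σ S α ρ A H ∧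
      Parseval σ S α ρ A H ∧
      Tendsto (fun x : ℝ => (A : ℂ) * exp (x * H (σ + x))) (𝓝[>] 0) (𝓝 (A : ℂ))) := by
  have hf : Frob X d i S α := hα
  have E := hf.sysV hi hσ
  obtain ⟨h1, h2⟩ := sys_hardy E (hf.realV hi) ρ hA
  rw [← int_iff ρ hA] at h1 h2
  refine ⟨?_, fun h => ?_⟩
  · rw [h1, ← shift_exists σ]
    exact exists_congr fun H => and_congr (hardy_iff σ H).symm (cont_iff E hσ ρ A H).symm
  · obtain ⟨H, hH1, hH2, hH3, hH4⟩ := h2 h
    refine ⟨fun s => H (s - σ), ?_, ?_, ?_, ?_⟩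
    · rw [hardy_iff]
      simpa using hH1
    · rw [cont_iff E hσ]
      simpa using hH2
    · intro x hx
      have h5 := hH3 x hx
      have h6 : ∫⁻ y in Ioi (1 : ℝ), ENNReal.ofReal (dev σ S α ρ A y ^ 2 * y ^ (-(2 * x)) / y) =
          ∫⁻ Y in Ioi (1 : ℝ), ENNReal.ofReal
            (DvR (NS S) (aV σ S α) ρ A Y ^ 2 * Y ^ (-(2 * x)) / Y) := by
        refine setLIntegral_congr_fun measurableSet_Ioi fun y hy => ?_
        rw [dev_eq hA hy, neg_sq]
      rw [h6, ← h5]
      refine lintegral_congr fun t => ?_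
      simp only
      congr 3
      ring
    · have h5 : Tendsto (fun x : ℝ => (A : ℂ) * exp ((x : ℂ) * H x)) (𝓝[>] 0)
          (𝓝 ((A : ℂ) * exp 0)) :=
        ((Complex.continuous_exp.tendsto 0).comp hH4).const_mul _
      rw [Complex.exp_zero, mul_one] at h5
      refine h5.congr fun x => ?_
      simp

end Pool.Agent.Results.MP_148101_nt.HardyCriterionVarieties
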