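import Pool.Agent.Y149.CR.Main
import Pool.Agent.Y149.CR.Ord

/-!
# Artin twists of all elliptic curves over `ℚ` on the edge line: the exceptions form a matching

`E` runs through modular elliptic curves over `ℚ` (by the modularity theorem all elliptic curves over `ℚ`
are modular), no two of them isogenous, and `ρ` through Artin representations of `ℚ`, of any dimension and
image.  `L(E ⊗ ρ, s)` is the `L`-function (`i = 1`) of the Chow motive `h¹(E) ⊗ M(ρ)`, and for the
permutation representation `ρ` of `Gal(ℚ̄/ℚ)` on the embeddings of a number field `F` it is the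
`L`-function `L(H¹(E_F), s)` of the curve `E_F`, seen as a variety over `ℚ`.  Problem MP_148101_nt predicts
that these functions are entire.  The theorem is about the whole boundary line `Re s = 3/2` of the half
plane of absolute convergence, and about all curves, all points of the line and all Artin representations
together.
-/

set_option autoImplicit false

namespace Pool.Agent.Results.MP_148101_nt.JointEdgeBessel

open NumberField IsDedekindDomain Filter Topology Polynomial CongruenceSubgroup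
open scoped MatrixGroups

/-- The trace of Frobenius `q_v + 1 - #E(k_v)` of the reduction at the prime `v` of the curve given by a
Weierstrass equation with integral coefficients; `#E(k_v)` is the number of the solutions of the affine
equation in the residue field, plus one. -/
noncomputable def trace (E : WeierstrassCurve (𝓞 ℚ)) (v : HeightOneSpectrum (𝓞 ℚ)) : ℤ :=
  (Ideal.absNorm v.asIdeal : ℤ) + 1 - ((Nat.card {P : (𝓞 ℚ ⧸ v.asIdeal) × (𝓞 ℚ ⧸ v.asIdeal) //
    (E.map (Ideal.Quotient.mk v.asIdeal)).toAffine.Equation P.1 P.2} : ℤ) + 1)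

/-- `E` is modular: there is a normalised cusp form `f = ∑ a_n q^n` of weight two on some `Γ₀(N)`
(`ac f n = a_n`) with the properties of a newform used here (`Hecke f`: real coefficients, `a_1 = 1`, `a_{mn} = a_m a_n` for coprime
`m, n`, `a_{p^{j+2}} = a_p a_{p^{j+1}} - p a_{p^j}`, without the last term if `p ∣ N`, `|a_p| ≤ 2 √p`, and
`|a_p| ≤ 1` for `p ∣ N`), such that `a_{q_v}` is the trace of Frobenius of `E` at almost all primes `v`. -/
def IsModular (E : WeierstrassCurve (𝓞 ℚ)) : Prop :=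
  ∃ (N : ℕ) (_ : NeZero N) (f : CuspForm (Gamma0 N : Subgroup (GL (Fin 2) ℝ)) 2),
    Pool.Agent.TH941.Hecke f ∧ ∀ᶠ v : HeightOneSpectrum (𝓞 ℚ) in cofinite,
      Pool.Agent.W165.RS.ac f (Ideal.absNorm v.asIdeal) = (trace E v : ℂ)

/-- The traces of Frobenius of the curves are different at infinitely many primes (by Faltings: the elliptic
curves are not isogenous over `ℚ`). -/
def NotIsogenous (E E' : WeierstrassCurve (𝓞 ℚ)) : Prop :=
  {v : HeightOneSpectrum (𝓞 ℚ) | trace E v ≠ trace E' v}.Infinite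

/-- `σ` is an arithmetic Frobenius element at the prime `v`: there is a maximal ideal `Q` above `v` of the
ring of all algebraic integers with `σ x ≡ x ^ q_v` modulo `Q` for all `x`. -/
def IsFrobeniusElement (v : HeightOneSpectrum (𝓞 ℚ)) (σ : Gal(AlgebraicClosure ℚ/ℚ)) : Prop :=
  ∃ Q : Ideal (𝓞 (AlgebraicClosure ℚ)), Q.IsMaximal ∧
    Q.comap (algebraMap (𝓞 ℚ) (𝓞 (AlgebraicClosure ℚ))) = v.asIdeal ∧
    ∀ x : 𝓞 (AlgebraicClosure ℚ), σ • x - x ^ Ideal.absNorm v.asIdeal ∈ Q

/-- An Artin representation: trivial on an open subgroup. -/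
def IsArtin {n : ℕ} (ρ : Representation ℂ Gal(AlgebraicClosure ℚ/ℚ) (Fin n → ℂ)) : Prop :=
  ∃ U : Subgroup Gal(AlgebraicClosure ℚ/ℚ), IsOpen (U : Set Gal(AlgebraicClosure ℚ/ℚ)) ∧
    ∀ u ∈ U, ρ u = 1

/-- The point `3/2 + iτ` of the edge line. -/
noncomputable def edge (τ : ℝ) : ℂ := 3 / 2 + τ * Complex.I

/-- The polynomials `B v` are the Euler factors of `L(E ⊗ ρ, s)`: for almost all primes `v`,
`B_v(z) = det(1 - a_v z ρ(σ⁻¹) + q_v z² ρ(σ⁻¹)²)` for the trace of Frobenius `a_v` of `E` and the Frobenius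
elements `σ` at `v`; at the other primes `B v` is an arbitrary polynomial, and no factor
`1 / B_v(q_v^{-s})` has a pole on the edge line. -/
def IsTwist (E : WeierstrassCurve (𝓞 ℚ)) {n : ℕ}
    (ρ : Representation ℂ Gal(AlgebraicClosure ℚ/ℚ) (Fin n → ℂ))
    (B : HeightOneSpectrum (𝓞 ℚ) → ℂ[X]) : Prop :=
  (∀ᶠ v in cofinite, ∀ σ, IsFrobeniusElement v σ → ∀ z : ℂ, (B v).eval z =
    LinearMap.det (1 - ((trace E v : ℂ) * z) • ρ σ⁻¹ +
      ((Ideal.absNorm v.asIdeal : ℂ) * z ^ 2) • (ρ σ⁻¹) ^ 2)) ∧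
  ∀ (τ : ℝ) (v : HeightOneSpectrum (𝓞 ℚ)),
    (B v).eval ((Ideal.absNorm v.asIdeal : ℂ) ^ (-edge τ)) ≠ 0

/-- The Euler product `∏ 1 / B_v(q_v^{-s})`. -/
noncomputable def LFun (B : HeightOneSpectrum (𝓞 ℚ) → ℂ[X]) (s : ℂ) : ℂ :=
  ∏' v, ((B v).eval ((Ideal.absNorm v.asIdeal : ℂ) ^ (-s)))⁻¹

/-- `log |L(3/2 + iτ + ε)| / log(1/ε)`; for a function with a meromorphic continuation of order `m` at
`3/2 + iτ` it tends to `-m` as `ε → 0+`. -/
noncomputable def size (B : HeightOneSpectrum (𝓞 ℚ) → ℂ[X]) (τ ε : ℝ) : ℝ :=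
  Real.log ‖LFun B (edge τ + ε)‖ / Real.log (1 / ε)

/-- The Euler product has a meromorphic continuation to a neighbourhood of `3/2 + iτ`, of order `m` at this
point (`m < 0` for a pole, `m > 0` for a zero). -/
def HasOrder (B : HeightOneSpectrum (𝓞 ℚ) → ℂ[X]) (τ : ℝ) (m : ℤ) : Prop :=
  ∃ Λ : ℂ → ℂ, MeromorphicAt Λ (edge τ) ∧
    (∀ᶠ s in 𝓝 (edge τ), (3 / 2 : ℝ) < s.re → Λ s = LFun B s) ∧
    meromorphicOrderAt Λ (edge τ) = m

/-- `dim Hom(ρ, ρ')`. -/
noncomputable def homDim {n n' : ℕ} (ρ : Representation ℂ Gal(AlgebraicClosure ℚ/ℚ) (Fin n → ℂ))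
    (ρ' : Representation ℂ Gal(AlgebraicClosure ℚ/ℚ) (Fin n' → ℂ)) : ℕ :=
  Module.finrank ℂ (ρ.IntertwiningMap ρ')

lemma edge_eq (τ : ℝ) : edge τ = ((1 / 2 : ℝ) : ℂ) + 1 + τ * Complex.I := by
  unfold edge
  push_cast
  ring

lemma edge_re (τ : ℝ) : (edge τ).re = 3 / 2 := by
  unfold edge
  simp

lemma trace_eq (E : WeierstrassCurve (𝓞 ℚ)) (v : HeightOneSpectrum (𝓞 ℚ)) :
    Pool.Agent.W540.BE.trv E v = trace E v := by
  unfold Pool.Agent.W540.BE.trv trace Pool.Agent.W540.BE.affCount Pool.Agent.W540.BE.redv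
  have e : (fun P : (𝓞 ℚ ⧸ v.asIdeal) × (𝓞 ℚ ⧸ v.asIdeal) =>
      P.2 ^ 2 + (E.map (Ideal.Quotient.mk v.asIdeal)).a₁ * P.1 * P.2 +
        (E.map (Ideal.Quotient.mk v.asIdeal)).a₃ * P.2 =
      P.1 ^ 3 + (E.map (Ideal.Quotient.mk v.asIdeal)).a₂ * P.1 ^ 2 +
        (E.map (Ideal.Quotient.mk v.asIdeal)).a₄ * P.1 +
        (E.map (Ideal.Quotient.mk v.asIdeal)).a₆) = fun P =>
      (E.map (Ideal.Quotient.mk v.asIdeal)).toAffine.Equation P.1 P.2 := by
    funext P
    exact propext (WeierstrassCurve.Affine.equation_iff _ _).symm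
  rw [e]

section schur
variable {n n' : ℕ} {ρ : Representation ℂ Gal(AlgebraicClosure ℚ/ℚ) (Fin n → ℂ)}
  {ρ' : Representation ℂ Gal(AlgebraicClosure ℚ/ℚ) (Fin n' → ℂ)}

lemma homDim_self (h : ρ.IsIrreducible) : homDim ρ ρ = 1 := by
  unfold homDim
  have := h
  exact Representation.IsIrreducible.finrank_intertwiningMap_self ρ

lemma homDim_ne (h : ρ.IsIrreducible) (h' : ρ'.IsIrreducible) (he : IsEmpty (ρ.Equiv ρ')) :
    homDim ρ ρ' = 0 := by
  unfold homDim
  have := h
  have := h'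
  have := he
  exact Module.finrank_zero_of_subsingleton

end schur

/-- The basic inequality for the sizes. -/
lemma sizes {ι : Type} {E : ι → WeierstrassCurve (𝓞 ℚ)} (hΔ : ∀ i, (E i).Δ ≠ 0)
    (hmod : ∀ i, IsModular (E i)) (hne : ∀ i j, i ≠ j → NotIsogenous (E i) (E j))
    {κ : Type} [Fintype κ] {n : κ → ℕ}
    {ρ : ∀ k, Representation ℂ Gal(AlgebraicClosure ℚ/ℚ) (Fin (n k) → ℂ)}
    (hρ : ∀ k, IsArtin (ρ k)) {B : ι → κ → HeightOneSpectrum (𝓞 ℚ) → ℂ[X]}
    (hB : ∀ i k, IsTwist (E i) (ρ k) (B i k)) :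
    (∀ i k (τ : ℝ), ∀ᶠ ε : ℝ in 𝓝[>] 0, LFun (B i k) (edge τ + ε) ≠ 0) ∧
    ∀ (S : Finset (ι × ℝ)) (C η : ℝ), 0 < η → ∀ᶠ ε : ℝ in 𝓝[>] 0, ∀ c : κ → ℝ,
      (∀ k, |c k| ≤ C) → ∑ a ∈ S, (max (∑ k, c k * size (B a.1 k) a.2 ε) 0) ^ 2 ≤
        ∑ k, ∑ l, (c k * c l) * (homDim (ρ k) (ρ l) : ℝ) + η := by
  choose M hM f hf hpt using hmod
  have := hM
  have h := Pool.Agent.Y149.CR.main E hΔ M f hf
    (fun i => by
      filter_upwards [hpt i] with v hv
      rw [trace_eq]
      exact hv)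
    (fun i j hij => by
      have h1 := hne i j hij
      unfold NotIsogenous at h1
      simpa only [trace_eq] using h1)
    n ρ hρ B
    (fun i k => by
      filter_upwards [(hB i k).1] with v hv σ hσ z
      rw [trace_eq]
      exact hv σ hσ z)
    (fun i k τ v => by
      rw [← edge_eq]
      exact (hB i k).2 τ v)
    (fun i k => LFun (B i k)) (fun i k s _ => rfl)
    (fun i k τ ε => size (B i k) τ ε) (fun i k τ ε => by
      unfold size
      rw [edge_eq])
  refine ⟨fun i k τ => ?_, h.2⟩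
  have h1 := h.1 i k τ
  rw [← edge_eq] at h1
  exact h1

/-- a continuation with an order -/
lemma order_size {B : HeightOneSpectrum (𝓞 ℚ) → ℂ[X]} {τ : ℝ} {m : ℤ}
    (hnz : ∀ᶠ ε : ℝ in 𝓝[>] 0, LFun B (edge τ + ε) ≠ 0) (h : HasOrder B τ m) :
    Tendsto (size B τ) (𝓝[>] 0) (𝓝 (-(m : ℝ))) := by
  obtain ⟨Λ, h1, h2, h3⟩ := h
  obtain ⟨m', h4, h5⟩ := Pool.Agent.Y149.CR.order_lim (edge_re τ) hnz ⟨h1, h2⟩
  rw [h3] at h4
  have h6 : m = m' := by exact_mod_cast h4
  rw [h6]
  exact h5

/-- **The edge line, all modular elliptic curves over `ℚ` and all Artin representations together.**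
Let `E_i`, `i ∈ ι`, be (finitely or infinitely many) modular elliptic curves over `ℚ`, pairwise not
isogenous, let `ρ_k`, `k` in a finite set, be Artin representations of `ℚ`,
`x_{i,k,τ}(ε) = log |L(E_i ⊗ ρ_k, 3/2 + iτ + ε)| / log(1/ε)`, and
`Q(c) = ∑_{k,l} c_k c_l dim Hom(ρ_k, ρ_l)`, for `c ∈ ℝ^κ`.
1. (No continuation is assumed.)  `L(E_i ⊗ ρ_k, 3/2 + iτ + ε) ≠ 0` for all small `ε > 0`, and for every
finite set `S` of pairs `(i, τ)`, all `C, η > 0` and all small `ε > 0`, for all `c` with `|c_k| ≤ C`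
simultaneously, the sum of `(∑_k c_k x_{i,k,τ}(ε))²` over the pairs `(i, τ)` in `S` for which
`∑_k c_k x_{i,k,τ}(ε) > 0` is at most `Q(c) + η`.
2. Let `T` be a set of pairs `(i, τ)`, finite or infinite (for instance all pairs), such that the functions
`L(E_i ⊗ ρ_k, s)` have meromorphic continuations to neighbourhoods of `3/2 + iτ` for `(i, τ) ∈ T`, of
orders `m_{i,k,τ}`.  Then for all `c ∈ ℝ^κ` the sum of `(∑_k c_k m_{i,k,τ})²` over the pairs in `T` where
`∑_k c_k m_{i,k,τ} > 0` is at most `Q(c)`.  For integers `c_k` the number of these pairs is at most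
`Q(c)`.
3. (The exceptions form a matching.)  Suppose that the `ρ_k` are irreducible and pairwise inequivalent.
Let `T` be a set of triples `(i, τ, k)` such that `L(E_i ⊗ ρ_k, s)` has a meromorphic continuation to a
neighbourhood of `3/2 + iτ`, of order `m (i, τ, k)`.  Then all zeros and poles are simple:
`|m (i, τ, k)| ≤ 1`.  For every curve `E_i` and every point `3/2 + iτ` at most one of the representations
has a zero or a pole there; and for every `ρ_k` there are at most one curve and one point of the line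
with a pole, and at most one curve and one point with a zero. -/
theorem result (ι : Type) (E : ι → WeierstrassCurve (𝓞 ℚ)) (hΔ : ∀ i, (E i).Δ ≠ 0)
    (hmod : ∀ i, IsModular (E i)) (hne : ∀ i j, i ≠ j → NotIsogenous (E i) (E j))
    (κ : Type) [Fintype κ] (n : κ → ℕ)
    (ρ : ∀ k, Representation ℂ Gal(AlgebraicClosure ℚ/ℚ) (Fin (n k) → ℂ))
    (hρ : ∀ k, IsArtin (ρ k)) (B : ι → κ → HeightOneSpectrum (𝓞 ℚ) → ℂ[X])
    (hB : ∀ i k, IsTwist (E i) (ρ k) (B i k)) :
    ((∀ i k (τ : ℝ), ∀ᶠ ε : ℝ in 𝓝[>] 0, LFun (B i k) (edge τ + ε) ≠ 0) ∧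
      ∀ (S : Finset (ι × ℝ)) (C η : ℝ), 0 < η → ∀ᶠ ε : ℝ in 𝓝[>] 0, ∀ c : κ → ℝ,
        (∀ k, |c k| ≤ C) → ∑ a ∈ S, (max (∑ k, c k * size (B a.1 k) a.2 ε) 0) ^ 2 ≤
          ∑ k, ∑ l, (c k * c l) * (homDim (ρ k) (ρ l) : ℝ) + η) ∧
    (∀ (T : Set (ι × ℝ)) (m : ι × ℝ → κ → ℤ), (∀ a ∈ T, ∀ k, HasOrder (B a.1 k) a.2 (m a k)) →
      (∀ S : Finset (ι × ℝ), (∀ a ∈ S, a ∈ T) → ∀ c : κ → ℝ,
        ∑ a ∈ S, (max (∑ k, c k * m a k) 0) ^ 2 ≤
          ∑ k, ∑ l, (c k * c l) * (homDim (ρ k) (ρ l) : ℝ)) ∧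
      ∀ c : κ → ℤ, {a ∈ T | 0 < ∑ k, c k * m a k}.Finite ∧
        ({a ∈ T | 0 < ∑ k, c k * m a k}.ncard : ℤ) ≤
          ∑ k, ∑ l, (c k * c l) * (homDim (ρ k) (ρ l) : ℤ)) ∧
    ((∀ k, (ρ k).IsIrreducible) → (∀ k l, k ≠ l → IsEmpty ((ρ k).Equiv (ρ l))) →
      ∀ (T : Set (ι × ℝ × κ)) (m : ι × ℝ × κ → ℤ),
        (∀ x ∈ T, HasOrder (B x.1 x.2.2) x.2.1 (m x)) →
        (∀ x ∈ T, |m x| ≤ 1) ∧
        (∀ i τ k l, (i, τ, k) ∈ T → (i, τ, l) ∈ T → m (i, τ, k) ≠ 0 → m (i, τ, l) ≠ 0 → k = l) ∧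
        (∀ i j τ υ k, (i, τ, k) ∈ T → (j, υ, k) ∈ T → m (i, τ, k) < 0 → m (j, υ, k) < 0 →
          i = j ∧ τ = υ) ∧
        (∀ i j τ υ k, (i, τ, k) ∈ T → (j, υ, k) ∈ T → 0 < m (i, τ, k) → 0 < m (j, υ, k) →
          i = j ∧ τ = υ)) := by
  classical
  have hsz := sizes hΔ hmod hne hρ hB
  refine ⟨hsz, fun T m hm => ?_, fun hirr hneq T m hm => ?_⟩
  · have key : ∀ S : Finset (ι × ℝ), (∀ a ∈ S, a ∈ T) → ∀ c : κ → ℝ,
        ∑ a ∈ S, (max (∑ k, c k * m a k) 0) ^ 2 ≤
          ∑ k, ∑ l, (c k * c l) * (homDim (ρ k) (ρ l) : ℝ) := by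
      intro S hS c
      refine le_of_forall_pos_le_add fun η hη => ?_
      have hcont : Continuous fun y : ℝ => (max y 0) ^ 2 := by fun_prop
      have hlim : Tendsto (fun ε : ℝ => ∑ a ∈ S, (max (∑ k, (-c k) *
          size (B a.1 k) a.2 ε) 0) ^ 2) (𝓝[>] 0)
          (𝓝 (∑ a ∈ S, (max (∑ k, (-c k) * (-(m a k : ℝ))) 0) ^ 2)) :=
        tendsto_finsetSum _ fun a ha => (hcont.tendsto _).comp
          (tendsto_finsetSum _ fun k _ =>
            (order_size (hsz.1 a.1 k a.2) (hm a (hS a ha) k)).const_mul (-c k))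
      simp only [neg_mul_neg] at hlim
      refine le_of_tendsto hlim ?_
      filter_upwards [hsz.2 S (∑ k, |c k|) η hη] with ε h4
      have h5 := h4 (fun k => -c k) fun k => by
        rw [abs_neg]
        exact Finset.single_le_sum (f := fun k => |c k|) (fun k _ => abs_nonneg _)
          (Finset.mem_univ k)
      simpa only [neg_mul_neg] using h5
    exact ⟨key, fun c => Pool.Agent.Y149.CR.card_le key c⟩
  · -- the inequality for a vector with given support
    have hQ : ∀ c : κ → ℝ, ∑ k, ∑ l, (c k * c l) * (homDim (ρ k) (ρ l) : ℝ) = ∑ k, c k ^ 2 := by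
      intro c
      refine Finset.sum_congr rfl fun k _ => ?_
      rw [Finset.sum_eq_single k]
      · rw [homDim_self (hirr k)]
        push_cast
        ring
      · intro l _ hl
        rw [homDim_ne (hirr k) (hirr l) (hneq k l hl.symm)]
        simp
      · intro h
        exact absurd (Finset.mem_univ k) h
    have key : ∀ (S : Finset (ι × ℝ)) (c : κ → ℝ),
        (∀ a ∈ S, ∀ k, c k ≠ 0 → (a.1, a.2, k) ∈ T) →
        ∑ a ∈ S, (max (∑ k, c k * m (a.1, a.2, k)) 0) ^ 2 ≤ ∑ k, c k ^ 2 := by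
      intro S c hS
      rw [← hQ]
      refine le_of_forall_pos_le_add fun η hη => ?_
      have hcont : Continuous fun y : ℝ => (max y 0) ^ 2 := by fun_prop
      have hlim : Tendsto (fun ε : ℝ => ∑ a ∈ S, (max (∑ k, (-c k) *
          size (B a.1 k) a.2 ε) 0) ^ 2) (𝓝[>] 0)
          (𝓝 (∑ a ∈ S, (max (∑ k, (-c k) * (-(m (a.1, a.2, k) : ℝ))) 0) ^ 2)) := by
        refine tendsto_finsetSum _ fun a ha => (hcont.tendsto _).comp
          (tendsto_finsetSum _ fun k _ => ?_)
        by_cases hk : c k = 0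
        · rw [hk]
          simp
        · exact (order_size (hsz.1 a.1 k a.2) (hm (a.1, a.2, k) (hS a ha k hk))).const_mul (-c k)
      simp only [neg_mul_neg] at hlim
      refine le_of_tendsto hlim ?_
      filter_upwards [hsz.2 S (∑ k, |c k|) η hη] with ε h4
      have h5 := h4 (fun k => -c k) fun k => by
        rw [abs_neg]
        exact Finset.single_le_sum (f := fun k => |c k|) (fun k _ => abs_nonneg _)
          (Finset.mem_univ k)
      simpa only [neg_mul_neg] using h5
    -- one representation, coefficient `s`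
    have one : ∀ (S : Finset (ι × ℝ)) (k : κ) (s : ℝ), (∀ a ∈ S, (a.1, a.2, k) ∈ T) →
        ∑ a ∈ S, (max (s * m (a.1, a.2, k)) 0) ^ 2 ≤ s ^ 2 := by
      intro S k s hS
      have h := key S (fun l => if l = k then s else 0) fun a ha l hl => by
        by_cases hlk : l = k
        · rw [hlk]; exact hS a ha
        · simp [hlk] at hl
      simpa [Finset.sum_ite_eq', ite_mul, ite_pow] using h
    have bd : ∀ x ∈ T, |m x| ≤ 1 := by
      rintro ⟨i, τ, k⟩ hx
      have h1 := one {(i, τ)} k 1 (by simpa using hx)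
      have h2 := one {(i, τ)} k (-1) (by simpa using hx)
      simp only [Finset.sum_singleton, one_mul, neg_mul] at h1 h2
      rw [abs_le]
      constructor
      · by_contra hcon
        push Not at hcon
        have h3 : (m (i, τ, k) : ℝ) ≤ -2 := by exact_mod_cast (by omega : m (i, τ, k) ≤ -2)
        have h4 : (2 : ℝ) ≤ max (-(m (i, τ, k) : ℝ)) 0 := le_trans (by linarith) (le_max_left _ _)
        nlinarith
      · by_contra hcon
        push Not at hcon
        have h3 : (2 : ℝ) ≤ m (i, τ, k) := by exact_mod_cast (by omega : 2 ≤ m (i, τ, k))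
        have h4 : (2 : ℝ) ≤ max (m (i, τ, k) : ℝ) 0 := le_trans h3 (le_max_left _ _)
        nlinarith
    -- two pairs, one representation
    have two : ∀ (s : ℝ), s ^ 2 = 1 → ∀ i j τ υ k, (i, τ, k) ∈ T → (j, υ, k) ∈ T →
        0 < s * m (i, τ, k) → 0 < s * m (j, υ, k) → i = j ∧ τ = υ := by
      intro s hs i j τ υ k h1 h2 h3 h4
      by_contra hcon
      have hne' : (i, τ) ≠ (j, υ) := fun h => hcon ⟨congrArg Prod.fst h, congrArg Prod.snd h⟩
      have h5 := one {(i, τ), (j, υ)} k s (by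
        intro a ha
        rcases Finset.mem_insert.1 ha with h | h
        · rw [h]; exact h1
        · rw [Finset.mem_singleton.1 h]; exact h2)
      rw [Finset.sum_pair hne', hs] at h5
      have hz : ∀ z : ℤ, 0 < s * z → 1 ≤ (max (s * z) 0) ^ 2 := by
        intro z hz
        have h6 : z ≠ 0 := by
          rintro rfl
          simp at hz
        have h7 : (1 : ℝ) ≤ (z : ℝ) ^ 2 := by
          have : (1 : ℤ) ≤ z ^ 2 := by
            have := sq_pos_of_ne_zero h6 |>.ne'
            have h8 : 0 < z ^ 2 := by positivity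
            omega
          exact_mod_cast this
        rw [max_eq_left hz.le, mul_pow, hs, one_mul]
        exact h7
      have h6 := hz _ h3
      have h7 := hz _ h4
      simp only at h5
      linarith
    refine ⟨bd, fun i τ k l hk hl hmk hml => ?_, fun i j τ υ k h1 h2 h3 h4 => ?_,
      fun i j τ υ k h1 h2 h3 h4 => ?_⟩
    · by_contra hkl
      have h := key {(i, τ)} (fun j => if j = k then (m (i, τ, k) : ℝ) else
        if j = l then (m (i, τ, l) : ℝ) else 0) fun a ha j hj => by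
          rw [Finset.mem_singleton.1 ha]
          by_cases h1 : j = k
          · rw [h1]; exact hk
          · by_cases h2 : j = l
            · rw [h2]; exact hl
            · simp [h1, h2] at hj
      have e : ∀ g : ℤ → ℝ → ℝ, g 0 0 = 0 → True := fun _ _ => trivial
      have s1 : ∑ j, (if j = k then (m (i, τ, k) : ℝ) else
          if j = l then (m (i, τ, l) : ℝ) else 0) * (m (i, τ, j) : ℝ) =
          (m (i, τ, k) : ℝ) ^ 2 + (m (i, τ, l) : ℝ) ^ 2 := by
        have h1 : ∀ j, (if j = k then (m (i, τ, k) : ℝ) else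
            if j = l then (m (i, τ, l) : ℝ) else 0) * (m (i, τ, j) : ℝ) =
            (if j = k then (m (i, τ, k) : ℝ) ^ 2 else 0) +
            (if j = l then (m (i, τ, l) : ℝ) ^ 2 else 0) := by
          intro j
          by_cases h2 : j = k
          · have h3 : j ≠ l := fun h => hkl (h2.symm.trans h)
            rw [if_pos h2, if_pos h2, if_neg h3, h2]
            ring
          · rw [if_neg h2, if_neg h2]
            by_cases h3 : j = l
            · rw [if_pos h3, if_pos h3, h3]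
              ring
            · rw [if_neg h3, if_neg h3]
              ring
        simp only [h1, Finset.sum_add_distrib, Finset.sum_ite_eq', Finset.mem_univ, if_true]
      have s2 : ∑ j, (if j = k then (m (i, τ, k) : ℝ) else
          if j = l then (m (i, τ, l) : ℝ) else 0) ^ 2 =
          (m (i, τ, k) : ℝ) ^ 2 + (m (i, τ, l) : ℝ) ^ 2 := by
        have h1 : ∀ j, (if j = k then (m (i, τ, k) : ℝ) else
            if j = l then (m (i, τ, l) : ℝ) else 0) ^ 2 =
            (if j = k then (m (i, τ, k) : ℝ) ^ 2 else 0) +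
            (if j = l then (m (i, τ, l) : ℝ) ^ 2 else 0) := by
          intro j
          by_cases h2 : j = k
          · have h3 : j ≠ l := fun h => hkl (h2.symm.trans h)
            rw [if_pos h2, if_pos h2, if_neg h3]
            ring
          · rw [if_neg h2, if_neg h2]
            by_cases h3 : j = l
            · rw [if_pos h3, if_pos h3]
              ring
            · rw [if_neg h3, if_neg h3]
              ring
        simp only [h1, Finset.sum_add_distrib, Finset.sum_ite_eq', Finset.mem_univ, if_true]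
      rw [Finset.sum_singleton] at h
      simp only at h
      rw [s1, s2] at h
      have q1 : (1 : ℝ) ≤ (m (i, τ, k) : ℝ) ^ 2 := by
        have h8 : (1 : ℤ) ≤ m (i, τ, k) ^ 2 := by
          have : 0 < m (i, τ, k) ^ 2 := by positivity
          omega
        exact_mod_cast h8
      have q2 : (1 : ℝ) ≤ (m (i, τ, l) : ℝ) ^ 2 := by
        have h8 : (1 : ℤ) ≤ m (i, τ, l) ^ 2 := by
          have : 0 < m (i, τ, l) ^ 2 := by positivity
          omega
        exact_mod_cast h8
      rw [max_eq_left (by linarith)] at h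
      nlinarith
    · refine two (-1) (by norm_num) i j τ υ k h1 h2 ?_ ?_
      · have : (m (i, τ, k) : ℝ) < 0 := by exact_mod_cast h3
        linarith
      · have : (m (j, υ, k) : ℝ) < 0 := by exact_mod_cast h4
        linarith
    · refine two 1 (by norm_num) i j τ υ k h1 h2 ?_ ?_
      · have : (0 : ℝ) < m (i, τ, k) := by exact_mod_cast h3
        linarith
      · have : (0 : ℝ) < m (j, υ, k) := by exact_mod_cast h4
        linarith

end Pool.Agent.Results.MP_148101_nt.JointEdgeBessel
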