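import Pool.Agent.Results.MP_148101_nt.HardyCriterionVarieties
import Pool.Agent.Q245.Me.Sys
import Pool.Agent.Q245.Me.Ord

/-!
# A criterion for the meromorphic continuation of the `L`-functions of varieties, with given zeros and poles

Let `X` be a smooth projective variety of dimension `d` over a number field `K` (for example `K = ℚ`), given by
homogeneous polynomials over `𝓞 K`, `i ≤ 2 d`, and let `S` be a finite set of primes such that for `v ∉ S` the
eigenvalues `α_{v,1}, …, α_{v,N}` of the Frobenius on `H^i(X)` are given by the numbers of points of `X` over the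
finite extensions of the residue field (by the theorem of Deligne this is so if `S` contains the primes of bad
reduction). NOTHING is assumed on `L(s) = ∏_{v ∉ S} ∏_j (1 - α_{v,j} q_v^{-s})⁻¹` outside of its half plane of
absolute convergence `Re s > i/2 + 1`.

Let `σ ≥ (i + 1)/2` be real (the centre of the expected functional equation, or any point to the right of it) and

`P_σ(y) = exp (- ∑_{q_v^k ≤ y} tr (Frob_v^k | H^i(X)) / (k q_v^{σk}))`,

a finite expression in numbers of points over finite fields. Let `σ ≤ τ < σ + 1/2`. Fix a finite set `Z` of complex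
numbers `ρ` with `Re ρ ≤ σ + 1/2` and integers `m(ρ)`, symmetric under complex conjugation, and real numbers `r` and
`A > 0`. The following are EQUIVALENT:

* `∫_e^∞ (log (A P_σ(y) / (e^γ log y)^r) - ∑_{ρ ∈ Z} m(ρ) Ein((ρ - σ) log y))² y^{-2(τ - σ)} dy/y < ∞`, where
  `Ein(w) = ∫_0^1 (e^{wt} - 1)/t dt`;
* `L(s) = A (s - σ)^r ∏_{ρ ∈ Z} ((s - ρ)/(s - σ))^{m(ρ)} exp ((s - σ) H(s))` with a function `H` in the Hardy space
  `H²` of the half plane `Re s > τ`.

In this case `L` has a meromorphic continuation to `Re s > τ`, and its zeros and poles there are exactly the `ρ ∈ Z`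
with `Re ρ > τ`, with the orders `m(ρ)`. In particular (for `σ = (i + 1)/2` the value `ρ = i/2 + 1` is allowed)
this is a criterion for the statement of the conjecture on all half planes to the right of the centre: a continuation
which is holomorphic but for a pole of a given order at `i/2 + 1`. For `i ≥ 2` and general `X` no continuation of `L`
to any point outside `Re s > i/2 + 1` is known; its existence on a half plane, together with the positions and the
orders of all zeros and poles, becomes one statement on the numbers of points of `X` over finite fields.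

For `Z = ∅` and `τ = σ` this is helper5's theorem `HardyCriterionVarieties` (same problem), whose
translation is used; for elliptic curves and `σ = 1` it is `MeromorphicHardyCriterion` (problem `MP_0d9be2_nt`).
-/

set_option autoImplicit false
set_option maxHeartbeats 1000000

namespace Pool.Agent.Results.MP_148101_nt.MeromorphicHardyVarieties

open Filter Topology Set Complex NumberField IsDedekindDomain MeasureTheory
open Pool.Agent.Results.MP_039d94_nt.ZeroFreeContinuation (norm IsLocal factor)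

variable {K : Type} [Field K] [NumberField K] {N : ℕ}

/-- `Ein(w) = ∫_0^1 (exp (w t) - 1) / t dt`, an entire function of `w`. -/
noncomputable def Ein (w : ℂ) : ℂ := ∫ t in (0 : ℝ)..1, (exp (w * t) - 1) / t

/-- `P_σ(y) = exp (- ∑_{q_v^k ≤ y} tr (Frob_v^k) / (k q_v^{σk}))`, the (finite) sum over the pairs `(v, k)`, `v` a prime
outside of `S`, `k = p.2 + 1 ≥ 1`, with `q_v^k ≤ y`; the traces `∑_j α_{v,j}^k` are real. -/
noncomputable def productStar (σ : ℝ) (S : Finset (HeightOneSpectrum (𝓞 K)))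
    (α : HeightOneSpectrum (𝓞 K) → Fin N → ℂ) (y : ℝ) : ℝ :=
  Real.exp (-∑ᶠ (p : {v : HeightOneSpectrum (𝓞 K) // v ∉ S} × ℕ)
    (_ : (norm p.1.1 : ℝ) ^ (p.2 + 1) ≤ y),
      (∑ j, α p.1.1 j ^ (p.2 + 1)).re /
        (((p.2 : ℝ) + 1) * ((norm p.1.1 : ℝ) ^ σ) ^ (p.2 + 1)))

/-- `H` belongs to the Hardy space `H²` of the half plane `Re s > τ`: it is analytic there, bounded on
the smaller half planes, and the integrals of `|H|²` over the vertical lines are bounded. -/
structure Hardy (τ : ℝ) (H : ℂ → ℂ) : Prop where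
  analytic : ∀ s : ℂ, τ < s.re → DifferentiableAt ℂ H s
  bounded : ∀ x : ℝ, τ < x → ∃ B : ℝ, ∀ s : ℂ, x ≤ s.re → ‖H s‖ ≤ B
  square : ∃ M : ℝ, ∀ x : ℝ, τ < x → ∫⁻ t : ℝ, ‖H (x + t * I)‖ₑ ^ 2 ≤ ENNReal.ofReal M

/-- The divisor `∑_{ρ ∈ Z} m(ρ) ρ` is symmetric under complex conjugation. -/
def Symmetric (Z : Finset ℂ) (m : ℂ → ℤ) : Prop :=
  ∀ ρ ∈ Z, (starRingEnd ℂ) ρ ∈ Z ∧ m ((starRingEnd ℂ) ρ) = m ρ

/-- `log (A P_σ(y) / (e^γ log y)^r) - ∑_{ρ ∈ Z} m(ρ) Ein((ρ - σ) log y)`; the sum is real if the divisor is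
symmetric. -/
noncomputable def deviation (σ : ℝ) (S : Finset (HeightOneSpectrum (𝓞 K)))
    (α : HeightOneSpectrum (𝓞 K) → Fin N → ℂ) (r A : ℝ) (Z : Finset ℂ) (m : ℂ → ℤ) (y : ℝ) : ℝ :=
  Real.log (A * productStar σ S α y / (Real.exp Real.eulerMascheroniConstant * Real.log y) ^ r) -
    ∑ ρ ∈ Z, (m ρ : ℝ) * (Ein ((ρ - σ) * Real.log y)).re

/-- `∫_e^∞ deviation(y)² y^{-2(τ - σ)} dy/y < ∞`. -/
def SquareIntegrable (σ τ : ℝ) (S : Finset (HeightOneSpectrum (𝓞 K)))
    (α : HeightOneSpectrum (𝓞 K) → Fin N → ℂ) (r A : ℝ) (Z : Finset ℂ) (m : ℂ → ℤ) : Prop :=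
  IntegrableOn (fun y : ℝ => deviation σ S α r A Z m y ^ 2 * y ^ (-(2 * (τ - σ))) / y)
    (Ioi (Real.exp 1))

/-- `A (s - σ)^r ∏_{ρ ∈ Z} ((s - ρ)/(s - σ))^{m(ρ)} exp ((s - σ) H(s))` -/
noncomputable def continuation (σ r A : ℝ) (Z : Finset ℂ) (m : ℂ → ℤ) (H : ℂ → ℂ) (s : ℂ) : ℂ :=
  A * (s - σ) ^ (r : ℂ) * (∏ ρ ∈ Z, ((s - ρ) / (s - σ)) ^ m ρ) * exp ((s - σ) * H s)

/-- The product `∏_{v ∉ S} factor v` converges to `F(s)` for `Re s > i/2 + 1` and `Re s > σ + 1/2`. -/
def Represents (i : ℕ) (σ : ℝ) (S : Finset (HeightOneSpectrum (𝓞 K)))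
    (α : HeightOneSpectrum (𝓞 K) → Fin N → ℂ) (F : ℂ → ℂ) : Prop :=
  ∀ s : ℂ, (i : ℝ) / 2 + 1 < s.re → σ + 1 / 2 < s.re →
    HasProd (fun v : {v : HeightOneSpectrum (𝓞 K) // v ∉ S} => factor α v.1 s) (F s)

/-! ### translation -/

open Pool.Agent.TH942.ES (Sys LE)
open Pool.Agent.TH270.MS (DvR)
open Pool.Agent.Q5.VA (NS aV Frob)
open Pool.Agent.Results.MP_148101_nt.HardyCriterionVarieties (prod_iff dev)
open Pool.Agent.Q245.Me (H2e gZ gZ_GD RZ RZ_exp RZ_diff sys_mero FZ FZ_order)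

variable {S : Finset (HeightOneSpectrum (𝓞 K))} {α : HeightOneSpectrum (𝓞 K) → Fin N → ℂ} {σ : ℝ}

/-- the shifted divisor -/
noncomputable def sh (σ : ℝ) (Z : Finset ℂ) : Finset ℂ := Z.image fun ρ => ρ - σ

def shm (σ : ℝ) (m : ℂ → ℤ) (w : ℂ) : ℤ := m (w + σ)

theorem dev_eq {r A y : ℝ} (hA : 0 < A) (hy : 1 < y) (Z : Finset ℂ) (m : ℂ → ℤ) :
    deviation σ S α r A Z m y =
      -(DvR (NS S) (aV σ S α) r A y + gZ (sh σ Z) (shm σ m) (Real.log y)) := by
  have h1 : dev σ S α r A y = -DvR (NS S) (aV σ S α) r A y :=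
    Pool.Agent.Results.MP_148101_nt.HardyCriterionVarieties.dev_eq hA hy
  have h2 : deviation σ S α r A Z m y = dev σ S α r A y -
      ∑ ρ ∈ Z, (m ρ : ℝ) * (Ein ((ρ - σ) * Real.log y)).re := rfl
  rw [h2, h1]
  unfold gZ sh
  rw [Finset.sum_image (fun a _ b _ h => by simpa using h)]
  have h3 : ∀ ρ : ℂ, Ein ρ = Pool.Agent.Q245.Me.Ein ρ := fun _ => rfl
  simp only [h3, shm, sub_add_cancel]
  ring

theorem int_iff {τ r A : ℝ} (hA : 0 < A) (Z : Finset ℂ) (m : ℂ → ℤ) :
    SquareIntegrable σ τ S α r A Z m ↔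
    IntegrableOn (fun Y : ℝ => (DvR (NS S) (aV σ S α) r A Y +
      gZ (sh σ Z) (shm σ m) (Real.log Y)) ^ 2 * Y ^ (-(2 * (τ - σ))) / Y) (Ioi (Real.exp 1)) := by
  refine integrableOn_congr_fun (fun y hy => ?_) measurableSet_Ioi
  have hy' : Real.exp 1 < y := hy
  have hy1 : 1 < y := by linarith [Real.add_one_le_exp 1]
  rw [dev_eq hA hy1, neg_sq]

theorem sh_sym {Z : Finset ℂ} {m : ℂ → ℤ} (hZ : Symmetric Z m) :
    ∀ ρ ∈ sh σ Z, (starRingEnd ℂ) ρ ∈ sh σ Z ∧ shm σ m ((starRingEnd ℂ) ρ) = shm σ m ρ := by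
  intro ρ hρ
  obtain ⟨w, hw, rfl⟩ := Finset.mem_image.1 hρ
  obtain ⟨h1, h2⟩ := hZ w hw
  have h3 : (starRingEnd ℂ) (w - σ) = (starRingEnd ℂ) w - σ := by simp
  rw [h3]
  refine ⟨Finset.mem_image.2 ⟨_, h1, rfl⟩, ?_⟩
  unfold shm
  rw [sub_add_cancel, sub_add_cancel]
  exact h2

theorem cont_eq (r A : ℝ) (Z : Finset ℂ) (m : ℂ → ℤ) (H : ℂ → ℂ) {s : ℂ} (hs : s - σ ≠ 0) :
    continuation σ r A Z m H s = FZ r A (sh σ Z) (shm σ m) (fun w => H (σ + w)) (s - σ) := by
  have h1 : RZ (sh σ Z) (shm σ m) (s - σ) = ∏ ρ ∈ Z, ((s - ρ) / (s - σ)) ^ m ρ := by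
    unfold RZ sh
    rw [Finset.prod_image (fun a _ b _ h => by simpa using h)]
    refine Finset.prod_congr rfl fun ρ _ => ?_
    unfold shm
    rw [sub_add_cancel]
    congr 1
    field_simp
    ring
  unfold continuation FZ
  rw [h1]
  simp only [add_sub_cancel]

theorem rep_iff {i : ℕ} (E : Sys (NS S) (aV σ S α)) (hσ : ((i : ℝ) + 1) / 2 ≤ σ) (r A : ℝ)
    (Z : Finset ℂ) (m : ℂ → ℤ) (H : ℂ → ℂ) :
    Represents i σ S α (continuation σ r A Z m H) ↔ ∀ w : ℂ, 1 / 2 < w.re →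
      LE (NS S) (aV σ S α) w =
        A * w ^ (r : ℂ) * RZ (sh σ Z) (shm σ m) w * exp (w * H (σ + w)) := by
  constructor
  · intro h w hw
    have h0 : ((σ : ℂ) + w).re = σ + w.re := by simp
    have h1 := h (σ + w) (by rw [h0]; linarith) (by rw [h0]; linarith)
    have hw0 : (σ : ℂ) + w - σ ≠ 0 := by
      rw [add_sub_cancel_left]
      rintro rfl
      simp at hw
      linarith
    rw [prod_iff E hw, cont_eq r A Z m H hw0, add_sub_cancel_left] at h1
    exact h1
  · intro h s _ hs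
    have hs' : 1 / 2 < (s - σ).re := by
      rw [Complex.sub_re, Complex.ofReal_re]
      linarith
    have hs0 : s - σ ≠ 0 := by
      intro h0
      rw [h0] at hs'
      simp at hs'
      linarith
    have h1 := h (s - σ) hs'
    rw [← prod_iff E hs', add_sub_cancel] at h1
    rw [cont_eq r A Z m H hs0]
    unfold FZ
    simp only [add_sub_cancel]
    exact h1

theorem hardy_iff (σ τ : ℝ) (H : ℂ → ℂ) : Hardy τ H ↔ H2e (τ - σ) (fun w => H (σ + w)) := by
  constructor
  · rintro ⟨h1, h2, M, h3⟩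
    refine ⟨fun s hs => ?_, fun x hx => ?_, M, fun x hx => ?_⟩
    · have h4 := h1 (σ + s) (by rw [add_re, ofReal_re]; linarith)
      exact DifferentiableAt.comp s (f := fun s : ℂ => (σ : ℂ) + s) h4 (by fun_prop)
    · obtain ⟨B, hB⟩ := h2 (σ + x) (by linarith)
      exact ⟨B, fun s hs => hB (σ + s) (by rw [add_re, ofReal_re]; linarith)⟩
    · have h4 := h3 (σ + x) (by linarith)
      refine le_trans (le_of_eq (lintegral_congr fun t => ?_)) h4
      push_cast
      rw [← add_assoc]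
  · rintro ⟨h1, h2, M, h3⟩
    refine ⟨fun s hs => ?_, fun x hx => ?_, M, fun x hx => ?_⟩
    · have h4 := h1 (s - σ) (by rw [sub_re, ofReal_re]; linarith)
      have h5 : H = (fun s => H (σ + s)) ∘ fun s => s - (σ : ℂ) := by
        funext z
        simp
      rw [h5]
      exact DifferentiableAt.comp s (f := fun s : ℂ => s - (σ : ℂ)) h4 (by fun_prop)
    · obtain ⟨B, hB⟩ := h2 (x - σ) (by linarith)
      refine ⟨B, fun s hs => ?_⟩
      have h4 := hB (s - σ) (by
        rw [Complex.sub_re, Complex.ofReal_re]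
        linarith)
      rwa [add_sub_cancel] at h4
    · have h4 := h3 (x - σ) (by linarith)
      refine le_trans (le_of_eq (lintegral_congr fun t => ?_)) h4
      congr 3
      push_cast
      ring

theorem shift_exists (σ : ℝ) (P : (ℂ → ℂ) → Prop) :
    (∃ H : ℂ → ℂ, P (fun w => H (σ + w))) ↔ ∃ H : ℂ → ℂ, P H :=
  Pool.Agent.Results.MP_148101_nt.HardyCriterionVarieties.shift_exists σ P

open scoped Classical in
theorem order_shift {σ τ r A : ℝ} (hA : 0 < A) (hτ : σ ≤ τ) (Z : Finset ℂ) (m : ℂ → ℤ)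
    {H : ℂ → ℂ} (hH : Hardy τ H) {s : ℂ} (hs : τ < s.re) :
    MeromorphicAt (continuation σ r A Z m H) s ∧
      meromorphicOrderAt (continuation σ r A Z m H) s =
        ((if s ∈ Z then m s else 0 : ℤ) : WithTop ℤ) := by
  have hw : τ - σ < (s - σ).re := by
    rw [sub_re, ofReal_re]
    linarith
  have hH' := (hardy_iff σ τ H).1 hH
  obtain ⟨h1, h2⟩ := FZ_order (r := r) (A := A) (η := τ - σ) hA (by linarith) (Z := sh σ Z)
    (m := shm σ m) (H := fun w => H (σ + w)) hH'.1 hw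
  have han : AnalyticAt ℂ (fun s : ℂ => s - (σ : ℂ)) s := analyticAt_id.sub analyticAt_const
  have e1 : (fun z : ℂ => FZ r A (sh σ Z) (shm σ m) (fun w => H (σ + w)) (z - σ)) =ᶠ[𝓝[≠] s]
      continuation σ r A Z m H := by
    refine Filter.Eventually.filter_mono nhdsWithin_le_nhds ?_
    have hne : s - (σ : ℂ) ≠ 0 := by
      intro h0
      rw [h0] at hw
      simp at hw
      linarith
    filter_upwards [han.continuousAt.eventually_ne hne] with z hz
    exact (cont_eq r A Z m H hz).symm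
  have hd : deriv (fun s : ℂ => s - (σ : ℂ)) s ≠ 0 := by
    simp
  have m1 : MeromorphicAt (FZ r A (sh σ Z) (shm σ m) (fun w => H (σ + w)) ∘
      fun z : ℂ => z - (σ : ℂ)) s := MeromorphicAt.comp_analyticAt (g := fun z : ℂ => z - (σ : ℂ)) h1 han
  have o1 : meromorphicOrderAt (FZ r A (sh σ Z) (shm σ m) (fun w => H (σ + w)) ∘
      fun z : ℂ => z - (σ : ℂ)) s =
      meromorphicOrderAt (FZ r A (sh σ Z) (shm σ m) (fun w => H (σ + w))) (s - σ) :=
    meromorphicOrderAt_comp_of_deriv_ne_zero han hd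
  refine ⟨m1.congr e1, ?_⟩
  rw [← meromorphicOrderAt_congr e1]
  have o2 := o1.trans h2
  refine o2.trans ?_
  have h3 : (s - σ ∈ sh σ Z) ↔ s ∈ Z := by
    unfold sh
    rw [Finset.mem_image]
    constructor
    · rintro ⟨w, hw, he⟩
      have : w = s := by simpa using he
      rwa [← this]
    · intro h
      exact ⟨s, h, rfl⟩
  unfold shm
  rw [sub_add_cancel]
  by_cases h : s ∈ Z
  · rw [if_pos (h3.2 h), if_pos h]
  · rw [if_neg (fun h' => h (h3.1 h')), if_neg h]

open scoped Classical in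
/-- **The criterion for the meromorphic continuation of the `L`-functions of varieties.** -/
theorem result (K : Type) [Field K] [NumberField K] (n : ℕ)
    (X : Set (MvPolynomial (Fin n) (𝓞 K))) (d i N : ℕ) (hi : i ≤ 2 * d)
    (S : Finset (HeightOneSpectrum (𝓞 K))) (α : HeightOneSpectrum (𝓞 K) → Fin N → ℂ)
    (hα : IsLocal X d i S α) (σ τ : ℝ) (hσ : ((i : ℝ) + 1) / 2 ≤ σ) (hτ : σ ≤ τ)
    (hτ2 : τ < σ + 1 / 2) (r A : ℝ) (hA : 0 < A) (Z : Finset ℂ) (m : ℂ → ℤ)
    (hZ : Symmetric Z m) (hre : ∀ ρ ∈ Z, ρ.re ≤ σ + 1 / 2) :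
    (SquareIntegrable σ τ S α r A Z m ↔
      ∃ H : ℂ → ℂ, Hardy τ H ∧ Represents i σ S α (continuation σ r A Z m H)) ∧
    (SquareIntegrable σ τ S α r A Z m → ∃ F : ℂ → ℂ, Represents i σ S α F ∧
      ∀ s : ℂ, τ < s.re → MeromorphicAt F s ∧
        meromorphicOrderAt F s = ((if s ∈ Z then m s else 0 : ℤ) : WithTop ℤ)) := by
  have hf : Frob X d i S α := hα
  have E := hf.sysV hi hσ
  have hre' : ∀ ρ ∈ sh σ Z, ρ.re ≤ 1 / 2 := by
    intro ρ hρ
    obtain ⟨w, hw, rfl⟩ := Finset.mem_image.1 hρ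
    have := hre w hw
    rw [sub_re, ofReal_re]
    linarith
  have hRd : ∀ s : ℂ, 1 / 2 < s.re → DifferentiableAt ℂ (RZ (sh σ Z) (shm σ m)) s := by
    intro s hs
    refine RZ_diff ?_ fun h => ?_
    · rintro rfl
      simp at hs
      linarith
    · have := hre' s h
      linarith
  have main := sys_mero E (hf.realV hi) r hA (η := τ - σ) (by linarith) (by linarith)
    (gZ_GD (sh_sym hZ) hre') (fun s hs => RZ_exp hre' hs) hRd
  rw [← int_iff (τ := τ) hA Z m] at main
  have h1 : SquareIntegrable σ τ S α r A Z m ↔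
      ∃ H : ℂ → ℂ, Hardy τ H ∧ Represents i σ S α (continuation σ r A Z m H) := by
    rw [main, ← shift_exists σ]
    exact exists_congr fun H => and_congr (hardy_iff σ τ H).symm (rep_iff E hσ r A Z m H).symm
  refine ⟨h1, fun h => ?_⟩
  obtain ⟨H, hH, hF⟩ := h1.1 h
  exact ⟨continuation σ r A Z m H, hF, fun s hs => order_shift hA hτ Z m hH hs⟩

end Pool.Agent.Results.MP_148101_nt.MeromorphicHardyVarieties
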