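import Pool.Agent.Q5.MS.Window3
import Pool.Agent.Results.MP_039d94_nt.ZeroFreeContinuation

/-!
# Analytic continuation of the `L`-functions of varieties from one window of sharp sums over primes

Let `X` be a smooth projective variety of dimension `d` over a number field `K` (for example `K = ℚ`), given by
homogeneous polynomials over `𝓞 K`, `i ≤ 2 d`, and let `S` be a finite set of primes such that for `v ∉ S` the
eigenvalues `α_{v,1}, …, α_{v,N}` of the Frobenius on `H^i(X)` are given by the numbers of points of `X` over the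
finite extensions of the residue field (by the theorem of Deligne this is so if `S` contains the primes of bad
reduction). `L(s) = ∏_{v ∉ S} ∏_j (1 - α_{v,j} q_v^{-s})⁻¹` converges absolutely for `Re s > i/2 + 1`; nothing else is
assumed on `L`, and in general it is not known whether `L` can be continued to any other point.

Let `c = (i+1)/2` be the central point, and, with the SHARP cut-off,

`P(y) = ∑_{q_v ≤ y} log |∏_j (1 - α_{v,j} q_v^{-c})|`,   `W_l(y) = ∑_{y^l < q_v ≤ y} log |∏_j (1 - α_{v,j} q_v^{-c})|`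

(`0 < l < 1`), the logarithms of the partial Euler product at `c` and of its part in the window `(y^l, y]`. Then:

1. For every `σ ≥ 0` and every `0 < l < 1`: `∫_e^Y |W_l(y)| dy/y = O(Y^(σ+ε))` for all `ε > 0` if and only if
   `∫_e^Y |P(y)| dy/y = O(Y^(σ+ε))` for all `ε > 0`. For `σ = 1/2` this always holds.
2. If this holds for ONE `l`, then `L` has an analytic continuation without zeros to the half plane
   `Re s > c + σ`. So every saving over the trivial bound, for one window, continues `L(H^i(X), s)` past the edge of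
   absolute convergence `Re s = i/2 + 1`.
3. If for some real numbers `ρ` and `M`, for every `l`, `∫_e^Y |W_l(y) - ρ log (1/l)| dy/y ≤ M log Y` for all large
   `Y`, then `L` has an analytic continuation without zeros to the half plane `Re s > c` to the right of the centre,
   and `log |L(c + x)| / log x → ρ` for `x → 0+`: the order of vanishing at the centre is `ρ`.

For elliptic curves over number fields this is `ContinuationFromOneWindow` of problem `MP_7ed9c3_nt`; criteria with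
smoothed sums, which are also necessary, are in `ZeroFreeContinuation` of problem `MP_039d94_nt`. The library is
`Pool.Agent.Q5.MS.Window3`.
-/

set_option autoImplicit false

namespace Pool.Agent.Results.MP_148101_nt.SharpWindows

open Filter Topology Set Complex NumberField IsDedekindDomain MeasureTheory
open Pool.Agent.Results.MP_039d94_nt.ZeroFreeContinuation (norm IsLocal factor Lfun)

variable {K : Type} [Field K] [NumberField K] {N : ℕ}

/-- `log |∏_j (1 - α_{v,j} q_v^{-c})|` -/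
noncomputable def localLog (c : ℝ) (α : HeightOneSpectrum (𝓞 K) → Fin N → ℂ)
    (v : HeightOneSpectrum (𝓞 K)) : ℝ :=
  Real.log ‖∏ j, (1 - α v j * (norm v : ℂ) ^ (-(c : ℂ)))‖

/-- `P(y)`, the finite sum over the `v ∉ S` with `q_v ≤ y`. -/
noncomputable def sum (c : ℝ) (S : Finset (HeightOneSpectrum (𝓞 K)))
    (α : HeightOneSpectrum (𝓞 K) → Fin N → ℂ) (y : ℝ) : ℝ :=
  ∑ᶠ (v : {v : HeightOneSpectrum (𝓞 K) // v ∉ S}) (_ : (norm v.1 : ℝ) ≤ y), localLog c α v.1

/-- `W_l(y)`, the finite sum over the `v ∉ S` with `y^l < q_v ≤ y`. -/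
noncomputable def window (c : ℝ) (S : Finset (HeightOneSpectrum (𝓞 K)))
    (α : HeightOneSpectrum (𝓞 K) → Fin N → ℂ) (l y : ℝ) : ℝ :=
  ∑ᶠ (v : {v : HeightOneSpectrum (𝓞 K) // v ∉ S}) (_ : y ^ l < norm v.1 ∧ (norm v.1 : ℝ) ≤ y),
    localLog c α v.1

/-- `∫_e^Y |φ(y)| dy/y = O(Y^(σ+ε))` for every `ε > 0`. -/
def Growth (φ : ℝ → ℝ) (σ : ℝ) : Prop := ∀ ε : ℝ, 0 < ε → ∃ B : ℝ, ∀ᶠ Y : ℝ in atTop,
  ∫ y in Real.exp 1..Y, |φ y| / y ≤ B * Y ^ (σ + ε)

/-- `F` is an analytic continuation without zeros of the `L`-function to the half plane `Re s > σ`. -/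
def Continues (i : ℕ) (S : Finset (HeightOneSpectrum (𝓞 K)))
    (α : HeightOneSpectrum (𝓞 K) → Fin N → ℂ) (F : ℂ → ℂ) (σ : ℝ) : Prop :=
  (∀ s : ℂ, σ < s.re → DifferentiableAt ℂ F s ∧ F s ≠ 0) ∧
    ∀ s : ℂ, (i : ℝ) / 2 + 1 < s.re → F s = Lfun S α s

/-! ### translation -/

open Pool.Agent.TH942.ES (Sys cv LE)
open Pool.Agent.Q5.VA (NS aV Frob lf_eq)
open Pool.Agent.Q5.MS (Pv WV GY window_gy cont_gy cont_unif gy_half)

variable {n : ℕ} {X : Set (MvPolynomial (Fin n) (𝓞 K))} {d i : ℕ}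
  {S : Finset (HeightOneSpectrum (𝓞 K))} {α : HeightOneSpectrum (𝓞 K) → Fin N → ℂ}

/-- the centre -/
noncomputable abbrev ce (i : ℕ) : ℝ := ((i : ℝ) + 1) / 2

theorem pv_window {X : Type} {d : ℕ} {M : X → ℕ} {β : X → Fin d → ℂ} (E : Sys M β) {l y : ℝ}
    (hl1 : l < 1) (hy : 1 ≤ y) : Pv M β y - Pv M β (y ^ l) =
      ∑ᶠ (v : X) (_ : y ^ l < M v ∧ (M v : ℝ) ≤ y), cv M β v := by
  have hle : y ^ l ≤ y := by
    calc y ^ l ≤ y ^ (1 : ℝ) := Real.rpow_le_rpow_of_exponent_le hy hl1.le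
      _ = y := Real.rpow_one y
  have h1 : {v : X | (M v : ℝ) ≤ y} = {v : X | (M v : ℝ) ≤ y ^ l} ∪
      {v : X | y ^ l < M v ∧ (M v : ℝ) ≤ y} := by
    ext v
    constructor
    · intro h1
      rcases le_or_gt (M v : ℝ) (y ^ l) with h | h
      · exact Or.inl h
      · exact Or.inr ⟨h, h1⟩
    · rintro (h1 | ⟨_, h3⟩)
      · exact le_trans h1 hle
      · exact h3
  have h2 : Disjoint {v : X | (M v : ℝ) ≤ y ^ l} {v : X | y ^ l < M v ∧ (M v : ℝ) ≤ y} := by
    rw [Set.disjoint_left]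
    rintro v h2 ⟨h3, _⟩
    exact absurd h2 (not_le.2 h3)
  have h3 : {v : X | y ^ l < M v ∧ (M v : ℝ) ≤ y}.Finite :=
    (E.fin_le y).subset fun v hv => hv.2
  have h4 : Pv M β y = ∑ᶠ v ∈ {v : X | (M v : ℝ) ≤ y}, cv M β v := rfl
  have h5 : Pv M β (y ^ l) = ∑ᶠ v ∈ {v : X | (M v : ℝ) ≤ y ^ l}, cv M β v := rfl
  rw [h4, h5, h1, finsum_mem_union h2 (E.fin_le _) h3, add_sub_cancel_left]
  rfl

theorem sum_eq (h : IsLocal X d i S α) : sum (ce i) S α = Pv (NS S) (aV (ce i) S α) := by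
  funext y
  unfold sum Pv
  refine finsum_congr fun v => finsum_congr fun _ => ?_
  have h1 : Frob X d i S α := h
  rw [h1.cvV le_rfl v]
  rfl

theorem window_eq (h : IsLocal X d i S α) (hi : i ≤ 2 * d) (ρ : ℝ) {l y : ℝ} (hl1 : l < 1)
    (hy : Real.exp 1 ≤ y) : WV (NS S) (aV (ce i) S α) ρ l y =
      window (ce i) S α l y - ρ * Real.log (1 / l) := by
  have h1 : Frob X d i S α := h
  have hy1 : (1 : ℝ) ≤ y := by linarith [Real.add_one_le_exp 1]
  unfold WV
  rw [pv_window (h1.sysV hi le_rfl) hl1 hy1]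
  have h2 : ∑ᶠ (v : {v : HeightOneSpectrum (𝓞 K) // v ∉ S})
      (_ : y ^ l < NS S v ∧ (NS S v : ℝ) ≤ y), cv (NS S) (aV (ce i) S α) v =
      window (ce i) S α l y := by
    unfold window
    refine finsum_congr fun v => finsum_congr fun _ => ?_
    rw [h1.cvV le_rfl v]
    rfl
  rw [h2, one_div, Real.log_inv]
  ring

theorem mean_int (h : IsLocal X d i S α) (hi : i ≤ 2 * d) (ρ : ℝ) {l : ℝ} (hl1 : l < 1) {Y : ℝ}
    (hY : Real.exp 1 ≤ Y) :
    ∫ y in Real.exp 1..Y, |WV (NS S) (aV (ce i) S α) ρ l y| / y =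
      ∫ y in Real.exp 1..Y, |window (ce i) S α l y - ρ * Real.log (1 / l)| / y := by
  refine intervalIntegral.integral_congr fun y hy => ?_
  rw [uIcc_of_le hY] at hy
  show |WV (NS S) (aV (ce i) S α) ρ l y| / y =
    |window (ce i) S α l y - ρ * Real.log (1 / l)| / y
  rw [window_eq h hi ρ hl1 hy.1]

theorem gy_window (h : IsLocal X d i S α) (hi : i ≤ 2 * d) {l : ℝ} (hl1 : l < 1) (σ : ℝ) :
    GY (WV (NS S) (aV (ce i) S α) 0 l) σ ↔ Growth (window (ce i) S α l) σ := by
  unfold GY Growth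
  refine forall_congr' fun ε => forall_congr' fun _ => exists_congr fun B => ?_
  refine eventually_congr ?_
  filter_upwards [eventually_ge_atTop (Real.exp 1)] with Y hY
  rw [mean_int h hi 0 hl1 hY]
  simp only [zero_mul, sub_zero]

theorem transport {G : ℂ → ℂ} {σ : ℝ}
    (h1 : ∀ w : ℂ, σ < w.re → DifferentiableAt ℂ G w ∧ G w ≠ 0)
    (h2 : ∀ w : ℂ, 1 / 2 < w.re → G w = LE (NS S) (aV (ce i) S α) w) :
    Continues i S α (fun s => G (s - ce i)) (ce i + σ) := by
  refine ⟨fun s hs => ?_, fun s hs => ?_⟩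
  · obtain ⟨h3, h4⟩ := h1 (s - ce i) (by rw [Complex.sub_re, Complex.ofReal_re]; linarith)
    exact ⟨DifferentiableAt.comp s (f := fun s : ℂ => s - ce i) h3 (by fun_prop), h4⟩
  · have hs' : 1 / 2 < (s - ce i).re := by
      rw [Complex.sub_re, Complex.ofReal_re]
      unfold ce
      linarith
    simp only
    rw [h2 _ hs', ← lf_eq (ce i) S α s]
    rfl

/-- **Continuation from one window of sharp sums.** -/
theorem result (K : Type) [Field K] [NumberField K] (n : ℕ)
    (X : Set (MvPolynomial (Fin n) (𝓞 K))) (d i N : ℕ) (hi : i ≤ 2 * d)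
    (S : Finset (HeightOneSpectrum (𝓞 K))) (α : HeightOneSpectrum (𝓞 K) → Fin N → ℂ)
    (hα : IsLocal X d i S α) (c : ℝ) (hc : c = ((i : ℝ) + 1) / 2) :
    (∀ σ l : ℝ, 0 ≤ σ → 0 < l → l < 1 →
      (Growth (window c S α l) σ ↔ Growth (sum c S α) σ)) ∧
    Growth (sum c S α) (1 / 2) ∧
    (∀ σ l : ℝ, 0 ≤ σ → 0 < l → l < 1 → Growth (window c S α l) σ →
      ∃ F : ℂ → ℂ, Continues i S α F (c + σ)) ∧
    (∀ ρ M : ℝ, (∀ l : ℝ, 0 < l → l < 1 → ∀ᶠ Y : ℝ in atTop,
      ∫ y in Real.exp 1..Y, |window c S α l y - ρ * Real.log (1 / l)| / y ≤ M * Real.log Y) →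
      ∃ F : ℂ → ℂ, Continues i S α F c ∧
        Tendsto (fun x : ℝ => Real.log ‖F (c + x)‖ / Real.log x) (𝓝[>] 0) (𝓝 ρ)) := by
  have hc' : c = ce i := hc
  rw [hc']
  have hf : Frob X d i S α := hα
  have E := hf.sysV hi (σ := ce i) le_rfl
  have p1 : ∀ σ l : ℝ, 0 ≤ σ → 0 < l → l < 1 →
      (Growth (window (ce i) S α l) σ ↔ Growth (sum (ce i) S α) σ) := by
    intro σ l hσ hl hl1
    rw [← gy_window hα hi hl1, sum_eq hα]
    exact window_gy E hl hl1 hσ
  refine ⟨p1, ?_, fun σ l hσ hl hl1 h => ?_, fun ρ M h => ?_⟩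
  · rw [sum_eq hα]
    exact gy_half E
  · have h1 := (p1 σ l hσ hl hl1).1 h
    rw [sum_eq hα] at h1
    obtain ⟨G, h2, h3⟩ := cont_gy E (hf.realV hi) hσ h1
    exact ⟨_, transport h2 h3⟩
  · obtain ⟨G, h2, h3, h4⟩ := cont_unif E (hf.realV hi) (ρ := ρ) (M := M)
      (fun l hl hl1 => by
        filter_upwards [h l hl hl1, eventually_ge_atTop (Real.exp 1)] with Y h1 hY
        rw [mean_int hα hi ρ hl1 hY]
        exact h1)
    refine ⟨fun s => G (s - ce i), ?_, h4.congr fun x => ?_⟩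
    · have := transport (i := i) h2 h3
      rwa [add_zero] at this
    · simp only
      rw [add_sub_cancel_left]

end Pool.Agent.Results.MP_148101_nt.SharpWindows
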